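import Pool.Agent.Q138.PS.XL
import Pool.Agent.Q138.PS.VY
import Pool.Agent.Q138.AI.R2000e9

/-!
# Zagier's conjecture for all weights together, and values of multiple polylogarithms at `1/t` and `1 - 1/t`, `t` close to `c n^j α^n`

`Li_s(x) = ∑_{n_1 > … > n_k ≥ 1} x^{n_1} / (n_1^{s_1} ⋯ n_k^{s_k})` (weight `|s| = s_1 + ⋯ + s_k`), `T_N = Z_0 + ⋯ + Z_N` is the
`ℚ`-span of the multiple zeta values of weight at most `N`, and `U_N(t)` the `ℚ`-span of the products `Li_s(1 - 1/t) Li_r(1/t)`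
with `|s| + |r| ≤ N`. Relations between different weights are allowed everywhere.

For almost every real number `α > 1` the following holds. The properties `A` of integers named below are RARE along the powers of
`α`: there is `κ > 0` such that for all algebraic numbers `c > 0`, all integers `j`, all real `D` and all large `n`, NO integer
`t ≥ b` (`b = 2` or `3`) with `|t - c n^j α^n| ≤ D (c n^j α^n)^κ` has the property `A`.

* `dim U_M(t) ≠ ∑_{k ≤ M} 2^k dim T_{M-k}` for some `M ≤ N` is rare, for each `N`;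
* for Zagier's numbers `d_k` (given the known bound `dim Z_k ≤ d_k`) and `R_N = ∑_{k ≤ N} 2^k (d_0 + ⋯ + d_{N-k})`:
  `dim Z_k = d_k` for all `k ≤ N` and `Z_0 + ⋯ + Z_N` is direct if and only if `dim U_N(t) < R_N` is rare;
* the conjecture (all dimensions, and independence of the weights) holds if and only if this is rare for infinitely many `N`.
-/

set_option autoImplicit false

namespace Pool.Agent.Results.MP_2000e9_nt.DimensionsNearPowers

open Filter Module MeasureTheory Pool.Agent.Q138.PS Pool.Agent.Q138.AI.R2000e9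

/-- **Theorem.** -/
theorem result (d : ℕ → ℕ) (h0 : d 0 = 1) (h1 : d 1 = 0) (h2 : d 2 = 1)
    (h3 : ∀ n, d (n + 3) = d (n + 1) + d n) :
    ∀ᵐ α : ℝ, 1 < α →
      (∀ N : ℕ, RarePow α 3 fun n =>
        ¬ ∀ M ≤ N, finrank ℚ (U n M) = ∑ k ∈ Finset.range (M + 1), 2 ^ k * finrank ℚ (T (M - k))) ∧
      ((∀ k, finrank ℚ (Z k) ≤ d k) →
        (∀ N : ℕ, ((∀ k ≤ N, finrank ℚ (Z k) = d k) ∧ IsDirect N) ↔ RarePow α 3 fun n => finrank ℚ (U n N) < R d N) ∧
        (Conjecture d ↔ ∀ N₀ : ℕ, ∃ N, N₀ ≤ N ∧ RarePow α 3 fun n => finrank ℚ (U n N) < R d N)) := by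
  obtain ⟨hup, hfew, hcrit⟩ := Pool.Agent.Q138.AI.R2000e9.result d h0 h1 h2 h3
  have hae := rarePow_ae (ι := ℕ) (fun N n => ¬ ∀ M ≤ N, finrank ℚ (U n M) =
    ∑ k ∈ Finset.range (M + 1), 2 ^ k * finrank ℚ (T (M - k)))
  filter_upwards [hae] with α hg hα
  have h1 := hg hα
  have hA := fun N => h1 N 3 (hfew N)
  refine ⟨hA, fun hZ => ?_⟩
  obtain ⟨hc1, hc2, -⟩ := hcrit hZ
  have key : ∀ N : ℕ, ((∀ k ≤ N, finrank ℚ (Z k) = d k) ∧ IsDirect N) ↔ RarePow α 3 fun n => finrank ℚ (U n N) < R d N := by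
    intro N
    constructor
    · intro h
      obtain ⟨n₀, hn₀, hR⟩ := (hc1 N).1 h
      refine (hA N).mono le_rfl fun t _ ht hall => ?_
      have h4 := (hup n₀ N hn₀).2
      rw [← hall N le_rfl] at h4
      exact absurd ht (not_lt.2 (hR.trans h4))
    · intro h
      obtain ⟨n, hn, hn'⟩ := h.exists_not hα
      exact (hc1 N).2 ⟨n, by omega, not_lt.1 hn'⟩
  refine ⟨key, ?_⟩
  constructor
  · intro h N₀
    obtain ⟨N, n, hN, hn, hR⟩ := hc2.1 h N₀
    exact ⟨N, hN, (key N).1 ((hc1 N).2 ⟨n, hn, hR⟩)⟩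
  · intro h
    refine hc2.2 fun N₀ => ?_
    obtain ⟨N, hN, hR⟩ := h N₀
    obtain ⟨n, hn, hn'⟩ := hR.exists_not hα
    exact ⟨N, n, hN, by omega, not_lt.1 hn'⟩

end Pool.Agent.Results.MP_2000e9_nt.DimensionsNearPowers
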