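import Pool.Agent.Q187.ZD.Zag

/-!
# Zagier's conjecture from one dimension count

Let `T_N = Z_0 + ... + Z_N` be the space of all multiple zeta values of weight at most `N` and
`S_N = d_0 + ... + d_N` its conjectural dimension. If `dim T_N > S_N - S_(N-p)` for one `N ≥ p`,
then `dim Z_j = d_j` for all `j ≤ p` and `Z_0 + ... + Z_p` is direct. So Zagier's conjecture holds
if and only if the upper limit of `dim T_N / S_N` is `1`.
-/

set_option autoImplicit false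

open Module

namespace Pool.Agent.Results.MP_2000e9_nt.OneDimensionCount

open Pool.Agent.Q187.ZD (IsMotivic IsZagier S)

/-- The `ℚ`-span of the multiple zeta values of weight `N`. -/
noncomputable def Z (N : ℕ) : Submodule ℚ ℝ :=
  Submodule.span ℚ
    {x : ℝ | ∃ r : ℕ, ∃ k : Fin r → ℕ, (∀ i, 1 ≤ k i) ∧ (∀ h : 0 < r, 2 ≤ k ⟨0, h⟩) ∧
      (∑ i, k i) = N ∧
      x = ∑' n : {n : Fin r → ℕ // StrictAnti n ∧ ∀ i, 1 ≤ n i},
            ∏ i, (1 / (n.1 i : ℝ)) ^ (k i)}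

/-- The space `Z_0 + ... + Z_N` of all multiple zeta values of weight at most `N`. -/
noncomputable def total (N : ℕ) : Submodule ℚ ℝ := (Finset.range (N + 1)).sup Z

/-- The sum `Z_0 + ... + Z_p` is direct. -/
def IsDirect (p : ℕ) : Prop :=
  ∀ z : ℕ → ℝ, (∀ j ≤ p, z j ∈ Z j) → (∑ j ∈ Finset.range (p + 1), z j) = 0 → ∀ j ≤ p, z j = 0

/-- Zagier's conjecture, as in the frozen statement. -/
def Conjecture (d : ℕ → ℕ) : Prop := (∀ N, finrank ℚ (Z N) = d N) ∧ iSupIndep Z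

theorem result (d : ℕ → ℕ) (hd : IsZagier d) (H : Type) [CommRing H] [Algebra ℚ H]
    (gr : ℕ → Submodule ℚ H) (per : H →ₐ[ℚ] ℝ) (hm : IsMotivic d Z gr per) :
    (∀ p N, p ≤ N → S d N < finrank ℚ (total N) + S d (N - p) →
      (∀ j ≤ p, finrank ℚ (Z j) = d j) ∧ IsDirect p) ∧
    (Conjecture d ↔ ∀ p, ∃ N, p ≤ N ∧ S d N < finrank ℚ (total N) + S d (N - p)) ∧
    (Conjecture d ↔
      ∀ ε : ℝ, 0 < ε → ∀ N₀, ∃ N ≥ N₀, (1 - ε) * S d N ≤ finrank ℚ (total N)) ∧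
    (∀ p, ¬ ((∀ j ≤ p, finrank ℚ (Z j) = d j) ∧ IsDirect p) → ∀ N, p ≤ N →
      (finrank ℚ (total N) : ℝ) ≤ (1 - (2 ^ p : ℝ)⁻¹) * S d N) :=
  ⟨fun _ _ hN h => Pool.Agent.Q187.ZD.up_to hm hN h, Pool.Agent.Q187.ZD.zagier_iff hd hm,
    Pool.Agent.Q187.ZD.zagier_limsup hd hm,
    fun _ hp _ hN => Pool.Agent.Q187.ZD.zagier_defect hd hm hp hN⟩

end Pool.Agent.Results.MP_2000e9_nt.OneDimensionCount
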