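import Pool.Agent.Q189.MV.Out2

/-!
# Zagier's conjecture for all weights together, and values of multiple polylogarithms at `1/n` and `1 - 1/n`

Let `Li_s(x) = ∑_{n_1 > … > n_k ≥ 1} x^{n_1} / (n_1^{s_1} ⋯ n_k^{s_k})`, weight `|s| = s_1 + ⋯ + s_k`. Let `T_N = Z_0 + ⋯ + Z_N` be the
`ℚ`-span of all multiple zeta values of weight at most `N`, and for `n ≥ 2` let `U_N(n)` be the `ℚ`-span of all products
`Li_s(1 - 1/n) Li_t(1/n)` with `|s| + |t| ≤ N`. Relations between different weights are allowed everywhere.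

* For all `n ≥ 2`: `T_N ⊆ U_N(n)` and `dim U_N(n) ≤ ∑_{k ≤ N} 2^k dim T_{N-k}`; for each `N` this is an equality (for all
  `M ≤ N`) for all but `C T^(1-c)` of the integers `3 ≤ n ≤ T`.
* Let `d_k` be Zagier's numbers, `S_k = d_0 + ⋯ + d_k`, `R_N = ∑_{k ≤ N} 2^k S_{N-k}`; it is known that `dim Z_k ≤ d_k`. Then
  (`dim Z_k = d_k` for all `k ≤ N` and `Z_0 + ⋯ + Z_N` is direct) if and only if `dim U_N(n) ≥ R_N` for ONE `n ≥ 2`. So the
  conjecture holds if and only if for infinitely many `N` there is one such `n`.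
* A zero-one law: the conjecture holds if and only if for each `ε > 0` there are infinitely many `N` with
  `dim U_N(n) ≥ (1 - ε) R_N` for some `n = n(N) ≥ 2`. So the asymptotic equality of dimensions, for one integer `n` for each
  weight, gives the exact formula and the directness in all weights.

Proof. Path composition and regularisation give `U_N(n) = ∑_k W_k T_{N-k}`, with `W_k` spanned by the `2^k` products
`log(1/n)^a Li_t(1/n)`, `a + |t| = k`; at almost all `n` these products are linearly independent over `T_N`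
(`Pool.Agent.Q189.HL`, near relations between values of hyperlogarithms at almost all points). A missing dimension in
weights at most `p` gives `dim U_N(n) ≤ R_N - 2^(N-p)` for all `N ≥ p` and all `n ≥ 2`, and `R_N ≤ 12 · 2^N`.
-/

set_option autoImplicit false

open Module

namespace Pool.Agent.Results.MP_2000e9_nt.TotalDimensionsAtIntegers

/-- The `ℚ`-span of the multiple zeta values of weight `N`. -/
noncomputable def Z (N : ℕ) : Submodule ℚ ℝ :=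
  Submodule.span ℚ
    {x : ℝ | ∃ r : ℕ, ∃ k : Fin r → ℕ, (∀ i, 1 ≤ k i) ∧ (∀ h : 0 < r, 2 ≤ k ⟨0, h⟩) ∧
      (∑ i, k i) = N ∧
      x = ∑' n : {n : Fin r → ℕ // StrictAnti n ∧ ∀ i, 1 ≤ n i},
            ∏ i, (1 / (n.1 i : ℝ)) ^ (k i)}

/-- `T_N = Z_0 + ⋯ + Z_N` -/
noncomputable def T (N : ℕ) : Submodule ℚ ℝ := (Finset.range (N + 1)).sup Z

/-- The sum `Z_0 + ... + Z_p` is direct. -/
def IsDirect (p : ℕ) : Prop :=
  ∀ z : ℕ → ℝ, (∀ j ≤ p, z j ∈ Z j) → (∑ j ∈ Finset.range (p + 1), z j) = 0 → ∀ j ≤ p, z j = 0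

/-- Zagier's conjecture, as in the frozen statement. -/
def Conjecture (d : ℕ → ℕ) : Prop := (∀ N, finrank ℚ (Z N) = d N) ∧ iSupIndep Z

/-- the truncated sums `∑_{N ≥ n_1 > … > n_k ≥ 1} 1 / (n_1^{s_1} ⋯ n_k^{s_k})` -/
noncomputable def trunc : List ℕ → ℕ → ℝ
  | [], _ => 1
  | a :: s, N => ∑ n ∈ Finset.range N, 1 / ((n : ℝ) + 1) ^ a * trunc s n

/-- the multiple polylogarithm `Li_s(x) = ∑_{n_1 > … > n_k ≥ 1} x^{n_1} / (n_1^{s_1} ⋯ n_k^{s_k})` -/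
noncomputable def Li : List ℕ → ℝ → ℝ
  | [], _ => 1
  | a :: s, x => ∑' n : ℕ, x ^ (n + 1) / ((n : ℝ) + 1) ^ a * trunc s n

/-- `V_N(n)`: the span of the products `Li_s(1 - 1/n) Li_t(1/n)` with `|s| + |t| = N` -/
noncomputable def V (n N : ℕ) : Submodule ℚ ℝ :=
  Submodule.span ℚ {r | ∃ s t : List ℕ, (∀ a ∈ s, 1 ≤ a) ∧ (∀ a ∈ t, 1 ≤ a) ∧ s.sum + t.sum = N ∧
    r = Li s (1 - 1 / n) * Li t (1 / n)}

/-- `U_N(n) = V_0(n) + ⋯ + V_N(n)` -/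
noncomputable def U (n N : ℕ) : Submodule ℚ ℝ := (Finset.range (N + 1)).sup (V n)

/-- `R_N = ∑_{k ≤ N} 2^k (d_0 + ⋯ + d_{N-k})` -/
def R (d : ℕ → ℕ) (N : ℕ) : ℕ := ∑ k ∈ Finset.range (N + 1), 2 ^ k * ∑ j ∈ Finset.range (N - k + 1), d j

/-- (1) the upper bound for all `n ≥ 2`; (2) equality at almost all `n`; (3) given the known upper bound `dim Z_k ≤ d_k`: the
criterion for the weights up to `N` by one `n`, the conjecture from infinitely many `N`, and the asymptotic criterion. -/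
theorem result (d : ℕ → ℕ) (h0 : d 0 = 1) (h1 : d 1 = 0) (h2 : d 2 = 1) (h3 : ∀ n, d (n + 3) = d (n + 1) + d n) :
    (∀ n N : ℕ, 2 ≤ n → T N ≤ U n N ∧ finrank ℚ (U n N) ≤ ∑ k ∈ Finset.range (N + 1), 2 ^ k * finrank ℚ (T (N - k))) ∧
    (∀ N : ℕ, ∃ C c : ℝ, 0 < c ∧ ∀ X : ℕ, 1 ≤ X →
      (({n : ℕ | 3 ≤ n ∧ n ≤ X ∧ ¬ ∀ M ≤ N, finrank ℚ (U n M) =
        ∑ k ∈ Finset.range (M + 1), 2 ^ k * finrank ℚ (T (M - k))}.ncard : ℕ) : ℝ) ≤ C * (X : ℝ) ^ (1 - c)) ∧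
    ((∀ k, finrank ℚ (Z k) ≤ d k) →
      (∀ N : ℕ, ((∀ k ≤ N, finrank ℚ (Z k) = d k) ∧ IsDirect N) ↔ ∃ n : ℕ, 2 ≤ n ∧ R d N ≤ finrank ℚ (U n N)) ∧
      (Conjecture d ↔ ∀ N₀ : ℕ, ∃ N n : ℕ, N₀ ≤ N ∧ 2 ≤ n ∧ R d N ≤ finrank ℚ (U n N)) ∧
      (Conjecture d ↔ ∀ ε : ℝ, 0 < ε → ∀ N₀ : ℕ, ∃ N n : ℕ, N₀ ≤ N ∧ 2 ≤ n ∧
        (1 - ε) * (R d N : ℝ) ≤ (finrank ℚ (U n N) : ℝ))) := by
  have hZ : Z = Pool.Agent.H447R2.MZ.Zs := by
    funext N
    unfold Z Pool.Agent.H447R2.MZ.Zs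
    simp only [one_div, inv_pow]
  have hT : T = Pool.Agent.Q189.MV.Tz := by
    funext N
    unfold T Pool.Agent.Q189.MV.Tz
    rw [hZ]
  have ht : trunc = Pool.Agent.Q189.MV.trunc := by
    funext s
    induction s with
    | nil => rfl
    | cons a s ih =>
      funext N
      show ∑ n ∈ Finset.range N, 1 / ((n : ℝ) + 1) ^ a * trunc s n =
        ∑ n ∈ Finset.range N, 1 / ((n : ℝ) + 1) ^ a * Pool.Agent.Q189.MV.trunc s n
      rw [ih]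
  have hL : Li = Pool.Agent.Q189.MV.Lis := by
    funext s x
    rcases s with _ | ⟨a, s⟩
    · rfl
    · show ∑' n : ℕ, x ^ (n + 1) / ((n : ℝ) + 1) ^ a * trunc s n =
        ∑' n : ℕ, x ^ (n + 1) / ((n : ℝ) + 1) ^ a * Pool.Agent.Q189.MV.trunc s n
      rw [ht]
  have hV : ∀ n : ℕ, V n = Pool.Agent.Q189.MV.Spc (1 / n) := by
    intro n
    funext N
    unfold V Pool.Agent.Q189.MV.Spc
    rw [hL]
  have hU : U = fun n N : ℕ => Pool.Agent.Q189.MV.SpT (1 / n) N := by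
    funext n N
    unfold U Pool.Agent.Q189.MV.SpT
    rw [hV]
  have hD : ∀ p, IsDirect p ↔ Pool.Agent.Q189.MV.Dir Pool.Agent.H447R2.MZ.Zs p := by
    intro p
    unfold IsDirect Pool.Agent.Q189.MV.Dir
    rw [hZ]
  have hC : Conjecture d ↔ ∀ N, (∀ k ≤ N, finrank ℚ (Pool.Agent.H447R2.MZ.Zs k) = d k) ∧
      Pool.Agent.Q189.MV.Dir Pool.Agent.H447R2.MZ.Zs N := by
    unfold Conjecture
    rw [hZ, Pool.Agent.Q189.MV.indep_iff]
    exact ⟨fun h N => ⟨fun k _ => h.1 k, h.2 N⟩, fun h => ⟨fun N => (h N).1 N le_rfl, fun p => (h p).2⟩⟩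
  rw [hU, hZ, hT]
  beta_reduce
  refine ⟨fun n N hn => ?_, Pool.Agent.Q189.MV.dimsT, fun hd => ?_⟩
  · obtain ⟨e1, e2⟩ := Pool.Agent.Q189.MV.inv_pos_lt hn
    rw [Pool.Agent.Q189.MV.SpT_eq e1 e2]
    exact ⟨Finset.sup_mono_fun fun j _ => Pool.Agent.Q189.MV.Zs_le_VN e1 e2 j, Pool.Agent.Q189.MV.finrank_VT_le e1 e2 N⟩
  · have hcrit := Pool.Agent.Q189.MV.total_crit hd
    have hinf : (∀ N₀ : ℕ, ∃ N n : ℕ, N₀ ≤ N ∧ 2 ≤ n ∧ R d N ≤ finrank ℚ (Pool.Agent.Q189.MV.SpT (1 / n) N)) →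
        Conjecture d := by
      intro h
      rw [hC]
      intro N₀
      obtain ⟨N, n, hN, hn⟩ := h N₀
      obtain ⟨g1, g2⟩ := (hcrit N).2 ⟨n, hn⟩
      exact ⟨fun k hk => g1 k (hk.trans hN), g2.le hN⟩
    refine ⟨fun N => ?_, ⟨fun h N₀ => ?_, hinf⟩, ⟨fun h ε hε N₀ => ?_, fun h => ?_⟩⟩
    · rw [hD]
      exact hcrit N
    · obtain ⟨n, hn⟩ := (hcrit N₀).1 (hC.1 h N₀)
      exact ⟨N₀, n, le_rfl, hn⟩
    · obtain ⟨n, hn, hb⟩ := (hcrit N₀).1 (hC.1 h N₀)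
      refine ⟨N₀, n, le_rfl, hn, ?_⟩
      have hb' : ((R d N₀ : ℕ) : ℝ) ≤ (finrank ℚ (Pool.Agent.Q189.MV.SpT (1 / n) N₀) : ℝ) := by exact_mod_cast hb
      have hR : (0 : ℝ) ≤ ((R d N₀ : ℕ) : ℝ) := Nat.cast_nonneg _
      nlinarith
    · have h5 := Pool.Agent.Q189.MV.asym h0 h1 h2 h3 hd h
      refine hinf fun N₀ => ?_
      have h6 := Pool.Agent.Q189.MV.dimT_crit (d := fun M => ∑ j ∈ Finset.range (M + 1), d j) (fun k => (h5 k).le) N₀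
      obtain ⟨n, hn⟩ := h6.1 fun k _ => h5 k
      exact ⟨N₀, n, le_rfl, hn⟩

end Pool.Agent.Results.MP_2000e9_nt.TotalDimensionsAtIntegers
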